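import Pool.Agent.W761.CC.LayS
import Pool.Agent.W975.CB.Ms

/-!
Project CC, part LB: one block, at most `κ` particles.
-/

set_option autoImplicit false

open MeasureTheory
open scoped ENNReal

namespace Pool.Agent.W308.CC

open Pool.Agent.W761.CB Pool.Agent.W761.CC

section pre

variable {X : Type}

open Classical in
lemma cnt_eq (B : Set X) (S : Multiset X) :
    cnt B S = (S.map fun x => if x ∈ B then 1 else 0).sum := by
  unfold cnt
  induction S using Multiset.induction_on with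
  | empty => simp
  | cons x S ih =>
    rw [Multiset.filter_cons, Multiset.card_add, ih, Multiset.map_cons, Multiset.sum_cons]
    split_ifs <;> simp

lemma cnt_cons (B : Set X) (x : X) (S : Multiset X) (h : x ∈ B) :
    cnt B (x ::ₘ S) = cnt B S + 1 := by
  classical
  rw [cnt_eq, cnt_eq, Multiset.map_cons, Multiset.sum_cons, if_pos h, add_comm]

lemma meas_cnt [MeasurableSpace X] (B : Set X) (hB : MeasurableSet B) :
    Measurable fun γ : Cf X => cnt B (ms γ) := by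
  classical
  simp only [cnt_eq]
  have h := Pool.Agent.W975.CB.sum_meas (X := X) (Z := ℕ) Unit (fun _ x => if x ∈ B then 1 else 0)
    (Measurable.ite (measurable_snd hB) measurable_const measurable_const)
  exact h.comp (measurable_prodMk_left (x := ()))

/-- the part with exactly `N` points in `B` -/
noncomputable def rs (B : Set X) (N : ℕ) (F : Multiset X → ℂ) : Multiset X → ℂ :=
  fun S => if cnt B S = N then F S else 0

lemma rs_eb [MeasurableSpace X] {B : Set X} (hB : MeasurableSet B) (N : ℕ) {F : Multiset X → ℂ}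
    (hF : EB F) : EB (rs B N F) := by
  obtain ⟨C, c, hC, hc, h⟩ := hF.bdd
  refine ⟨?_, C, c, hC, hc, fun S => ?_⟩
  · unfold rs
    exact Measurable.ite ((meas_cnt B hB) (measurableSet_singleton N)) hF.meas measurable_const
  · unfold rs
    split_ifs
    · exact h S
    · rw [norm_zero]; positivity

lemma rs_zero (B : Set X) (N : ℕ) (F : Multiset X → ℂ) (S : Multiset X) (h : cnt B S ≠ N) :
    rs B N F S = 0 := if_neg h

lemma rs_cons {B : Set X} (N : ℕ) (F : Multiset X → ℂ) {x : X} (S : Multiset X) (hx : x ∈ B) :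
    rs B N F (x ::ₘ S) = if cnt B S + 1 = N then F (x ::ₘ S) else 0 := by
  unfold rs
  rw [cnt_cons B x S hx]

lemma rs_av [MeasurableSpace X] (ν : Measure X) {B C : Set X} (hC : MeasurableSet C)
    (hCB : C ⊆ B) (N : ℕ) (F : Multiset X → ℂ) (S : Multiset X) :
    av ν C (rs B N F) S = if cnt B S + 1 = N then av ν C F S else 0 := by
  unfold av
  rw [setIntegral_congr_fun hC (fun x hx => rs_cons N F S (hCB hx))]
  split_ifs
  · rfl
  · simp

lemma sum_ite_le (κ a : ℕ) (z : ℝ≥0∞) : ∑ N ∈ Finset.Icc 1 κ, (if a = N then z else 0) ≤ z := by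
  rw [Finset.sum_ite_eq]
  split_ifs
  · exact le_rfl
  · exact zero_le

lemma sum_lint {Y : Type} [MeasurableSpace Y] (μ : Measure Y) (s : Finset ℕ)
    (f : ℕ → Y → ℝ≥0∞) : ∑ i ∈ s, ∫⁻ y, f i y ∂μ ≤ ∫⁻ y, ∑ i ∈ s, f i y ∂μ := by
  classical
  induction s using Finset.induction_on with
  | empty => simp
  | insert a s ha ih =>
    rw [Finset.sum_insert ha]
    refine (add_le_add le_rfl ih).trans ?_
    refine (le_lintegral_add _ _).trans (le_of_eq ?_)
    refine lintegral_congr fun y => ?_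
    rw [Finset.sum_insert ha]

end pre

section main

variable {X : Type} [MeasurableSpace X] (ν : Measure X)

lemma enorm_ite (p : Prop) [Decidable p] (z : ℂ) :
    ‖(if p then z else 0)‖ₑ ^ 2 = if p then ‖z‖ₑ ^ 2 else 0 := by
  split_ifs <;> simp

lemma nE_sum (B : Set X) (κ : ℕ) (F : Multiset X → ℂ) :
    ∑ N ∈ Finset.Icc 1 κ, nE ν (rs B N F) ≤ nE ν F := by
  unfold nE
  refine (sum_lint _ _ _).trans (lintegral_mono fun γ => ?_)
  simp only [rs, enorm_ite]
  exact sum_ite_le κ _ _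

lemma nE_sum_sq {B : Set X} (hB : MeasurableSet B) (κ : ℕ) {F : Multiset X → ℂ} (hF : EB F) :
    ∫⁻ γ, (if cnt B (ms γ) ≤ κ then (cnt B (ms γ) : ℝ≥0∞) ^ 2 else 0) *
      ‖F (ms γ)‖ₑ ^ 2 ∂(lam ν) = ∑ N ∈ Finset.Icc 1 κ, (N : ℝ≥0∞) ^ 2 * nE ν (rs B N F) := by
  have h1 : ∀ N ∈ Finset.Icc 1 κ, (N : ℝ≥0∞) ^ 2 * nE ν (rs B N F) =
      ∫⁻ γ, (N : ℝ≥0∞) ^ 2 * ‖rs B N F (ms γ)‖ₑ ^ 2 ∂(lam ν) := by
    intro N _
    unfold nE
    rw [lintegral_const_mul _ ((rs_eb hB N hF).meas.enorm.pow_const 2)]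
  rw [Finset.sum_congr rfl h1, ← lintegral_finsetSum]
  · refine lintegral_congr fun γ => ?_
    have h2 : ∀ N ∈ Finset.Icc 1 κ, (N : ℝ≥0∞) ^ 2 * ‖rs B N F (ms γ)‖ₑ ^ 2 =
        if cnt B (ms γ) = N then (N : ℝ≥0∞) ^ 2 * ‖F (ms γ)‖ₑ ^ 2 else 0 := by
      intro N _
      simp only [rs, enorm_ite]
      split_ifs
      · rfl
      · rw [mul_zero]
    rw [Finset.sum_congr rfl h2, Finset.sum_ite_eq]
    by_cases h0 : cnt B (ms γ) = 0
    · simp [h0]
    · by_cases hκ : cnt B (ms γ) ≤ κ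
      · rw [if_pos (Finset.mem_Icc.2 ⟨by omega, hκ⟩), if_pos hκ]
      · rw [if_neg (fun h => hκ (Finset.mem_Icc.1 h).2), if_neg hκ, zero_mul]
  · intro N _
    exact ((rs_eb hB N hF).meas.enorm.pow_const 2).const_mul _

lemma dp_sum {B : Set X} (hB : MeasurableSet B) (κ : ℕ) (F : Multiset X → ℂ) :
    ∑ N ∈ Finset.Icc 1 κ, dp ν B (rs B N F) ≤ dp ν B F := by
  unfold dp
  refine (sum_lint _ _ _).trans ?_
  refine setLIntegral_mono' hB fun x hx => ?_
  unfold nE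
  refine (sum_lint _ _ _).trans (lintegral_mono fun γ => ?_)
  have h1 : ∀ N ∈ Finset.Icc 1 κ,
      ‖rs B N F (x ::ₘ ms γ) - av ν B (rs B N F) (ms γ)‖ₑ ^ 2 =
      if cnt B (ms γ) + 1 = N then ‖F (x ::ₘ ms γ) - av ν B F (ms γ)‖ₑ ^ 2 else 0 := by
    intro N _
    rw [rs_cons N F _ hx, rs_av ν hB (le_refl B)]
    split_ifs <;> simp
  rw [Finset.sum_congr rfl h1]
  exact sum_ite_le κ _ _

omit [MeasurableSpace X] in
lemma iso_mem {B D : Set X} {near : X → X → Prop} {S : Multiset X} {y : X}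
    (h : y ∈ iso B D near S) : y ∈ D := by
  classical
  unfold iso at h
  exact (Multiset.mem_filter.1 h).2.1

lemma iso_sum {B bd : Set X} {near : X → X → Prop} {Cb : X → Set X}
    (hCm : ∀ y, MeasurableSet (Cb y)) (hC : ∀ y ∈ B, y ∉ bd → Cb y ⊆ B) (κ : ℕ)
    (F : Multiset X → ℂ) :
    ∑ N ∈ Finset.Icc 1 κ, ∫⁻ γ, ((iso B (B \ bd) near (ms γ)).map
      fun y => ‖av ν (Cb y) (rs B N F) (ms γ)‖ₑ ^ 2).sum ∂(lam ν) ≤
    ∫⁻ γ, ((iso B (B \ bd) near (ms γ)).map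
      fun y => ‖av ν (Cb y) F (ms γ)‖ₑ ^ 2).sum ∂(lam ν) := by
  classical
  refine (sum_lint _ _ _).trans (lintegral_mono fun γ => ?_)
  have h1 : ∀ N ∈ Finset.Icc 1 κ, ((iso B (B \ bd) near (ms γ)).map
      fun y => ‖av ν (Cb y) (rs B N F) (ms γ)‖ₑ ^ 2).sum =
      if cnt B (ms γ) + 1 = N then ((iso B (B \ bd) near (ms γ)).map
        fun y => ‖av ν (Cb y) F (ms γ)‖ₑ ^ 2).sum else 0 := by
    intro N _
    have h2 : ((iso B (B \ bd) near (ms γ)).map
        fun y => ‖av ν (Cb y) (rs B N F) (ms γ)‖ₑ ^ 2) =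
        ((iso B (B \ bd) near (ms γ)).map
        fun y => if cnt B (ms γ) + 1 = N then ‖av ν (Cb y) F (ms γ)‖ₑ ^ 2 else 0) := by
      refine Multiset.map_congr rfl fun y hy => ?_
      have hy2 := iso_mem hy
      rw [rs_av ν (hCm y) (hC y hy2.1 hy2.2), enorm_ite]
    rw [h2]
    split_ifs
    · rfl
    · simp
  rw [Finset.sum_congr rfl h1]
  exact sum_ite_le κ _ _

end main

theorem lb : S_ONE → S_LB := by
  intro hONE X _ ν _ B bd near Cb κ b q ν' β ε F hB hbd hnear hCb hb hνB hbdB hβ hνbd hrefl hsym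
    hν' hn hq hC hε hε1 hF
  have hCm : ∀ y, MeasurableSet (Cb y) := fun y => measurable_prodMk_left hCb
  rw [nE_sum_sq ν hB κ hF, Finset.mul_sum]
  have hterm : ∀ N ∈ Finset.Icc 1 κ,
      ENNReal.ofReal ((1 - ε) / b) * ((N : ℝ≥0∞) ^ 2 * nE ν (rs B N F)) ≤
      ENNReal.ofReal (κ / b + κ ^ 2 / b ^ 2 * (2 * β + 2 * ν' * κ)) * nE ν (rs B N F) +
      ENNReal.ofReal (5 * κ ^ 2 / b + κ / (ε * q)) * dp ν B (rs B N F) +
      ∫⁻ γ, ((iso B (B \ bd) near (ms γ)).map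
        fun y => ‖av ν (Cb y) (rs B N F) (ms γ)‖ₑ ^ 2).sum ∂(lam ν) := by
    intro N hN
    obtain ⟨hN1, hNκ⟩ := Finset.mem_Icc.1 hN
    have h1 := hONE X ν B bd near Cb N b q ν' β ε (rs B N F) hB hbd hnear hCb hb hνB hbdB hβ hνbd
      hrefl hsym hν' hn hq hC hε hε1 (rs_eb hB N hF) (fun S hS => rs_zero B N F S hS)
    have hN1' : (1 : ℝ) ≤ N := by exact_mod_cast hN1
    have hNκ' : (N : ℝ) ≤ κ := by exact_mod_cast hNκ
    have hN0 : (0 : ℝ) ≤ N := by linarith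
    have hsq : (N : ℝ) ^ 2 ≤ (κ : ℝ) ^ 2 := pow_le_pow_left₀ hN0 hNκ' 2
    have e1 : ENNReal.ofReal ((1 - ε) / b) * ((N : ℝ≥0∞) ^ 2 * nE ν (rs B N F)) =
        ENNReal.ofReal ((1 - ε) * N ^ 2 / b) * nE ν (rs B N F) := by
      rw [← mul_assoc]
      congr 1
      have : ((N : ℝ≥0∞) ^ 2) = ENNReal.ofReal ((N : ℝ) ^ 2) := by
        rw [ENNReal.ofReal_pow hN0, ENNReal.ofReal_natCast]
      rw [this, ← ENNReal.ofReal_mul (div_nonneg (by linarith) hb.le)]
      congr 1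
      ring
    rw [e1]
    refine h1.trans ?_
    refine add_le_add (add_le_add ?_ ?_) le_rfl
    · refine mul_le_mul_of_nonneg_right (ENNReal.ofReal_le_ofReal ?_) (zero_le)
      have h2 : (N : ℝ) / b ≤ κ / b := div_le_div_of_nonneg_right hNκ' hb.le
      have h3 : (N : ℝ) ^ 2 / b ^ 2 ≤ (κ : ℝ) ^ 2 / b ^ 2 :=
        div_le_div_of_nonneg_right hsq (by positivity)
      have h4 : 2 * β + 2 * ν' * N ≤ 2 * β + 2 * ν' * κ := by nlinarith
      have h5 : (N : ℝ) ^ 2 / b ^ 2 * (2 * β + 2 * ν' * N) ≤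
          (κ : ℝ) ^ 2 / b ^ 2 * (2 * β + 2 * ν' * κ) :=
        mul_le_mul h3 h4 (by positivity) (by positivity)
      linarith
    · refine mul_le_mul_of_nonneg_right (ENNReal.ofReal_le_ofReal ?_) (zero_le)
      have h2 : (3 * (N : ℝ) + 2 * N ^ 2) / b ≤ 5 * κ ^ 2 / b := by
        apply div_le_div_of_nonneg_right _ hb.le
        nlinarith
      have h3 : (N : ℝ) / (ε * q) ≤ κ / (ε * q) :=
        div_le_div_of_nonneg_right hNκ' (by positivity)
      linarith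
  refine (Finset.sum_le_sum hterm).trans ?_
  rw [Finset.sum_add_distrib, Finset.sum_add_distrib, ← Finset.mul_sum, ← Finset.mul_sum]
  refine add_le_add (add_le_add ?_ ?_) ?_
  · exact mul_le_mul_of_nonneg_left (nE_sum ν B κ F) (zero_le)
  · exact mul_le_mul_of_nonneg_left (dp_sum ν hB κ F) (zero_le)
  · exact iso_sum ν hCm (fun y hy hy' => (hC y hy hy').1) κ F

end Pool.Agent.W308.CC
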